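import Pool.Agent.H84.Sym.Defs2
import Pool.Agent.H85.Sym.G2a

/-!
# Project SYM2, module Q3: sections of the approximating potentials
-/

set_option autoImplicit false
set_option linter.style.haveILetI false
set_option linter.unusedSectionVars false
set_option linter.unusedVariables false

open MeasureTheory Set Filter Topology
open scoped ContDiff Pointwise

namespace Pool.Agent.H84.Sym

open Pool.Agent.H84

universe v

variable {E : Type v} [NormedAddCommGroup E] [InnerProductSpace ℝ E]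
    [FiniteDimensional ℝ E] [MeasurableSpace E] [BorelSpace E]

namespace Q3

open L1

variable {K : Set E} {R ε : ℝ}

theorem second_apply' {U : E → ℝ} (hU : ContDiff ℝ 2 U) (x v w : E) :
    fderiv ℝ (fderiv ℝ U) x v w = fderiv ℝ (fun y => fderiv ℝ U y w) x v := by
  have h1 : Differentiable ℝ (fderiv ℝ U) :=
    (hU.fderiv_right (m := 1) (by norm_num)).differentiable one_ne_zero
  rw [fderiv_clm_apply (h1 x) (differentiableAt_const w)]
  simp

theorem hess_NL_apply (hε : 0 < ε) (hK : CB K R) (y v w : E) :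
    fderiv ℝ (fderiv ℝ (NL K ε)) y v w =
      -((ε ^ 2)⁻¹ * ((ε ^ 2)⁻¹ * (avg K ε (fun z => inner ℝ z w * inner ℝ z v) y -
        avg K ε (fun z => inner ℝ z w) y * avg K ε (fun z => inner ℝ z v) y) - inner ℝ v w)) := by
  rw [second_apply' (contDiff_NL hε hK)]
  have h : (fun x => fderiv ℝ (NL K ε) x w) = fun x => -((ε ^ 2)⁻¹ *
      (avg K ε (fun z => inner ℝ z w) x - inner ℝ x w)) := by
    ext x
    exact fderiv_NL hε hK x w
  obtain ⟨m1, M, hM⟩ := bm_inner hK w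
  have hA : HasFDerivAt (avg K ε (fun z => inner ℝ z w))
        (fderiv ℝ (avg K ε (fun z => inner ℝ z w)) y) y :=
      (((contDiff_avg hε hK.meas hK.sub hK.vol0 m1 hM).differentiable one_ne_zero) y).hasFDerivAt
  have hB : HasFDerivAt (fun x : E => (inner ℝ x w : ℝ)) (innerSL ℝ w) y := by
    have e : (fun x : E => (inner ℝ x w : ℝ)) = fun x => innerSL ℝ w x := by
      ext z
      rw [innerSL_apply_apply, real_inner_comm]
    rw [e]
    exact (innerSL ℝ w).hasFDerivAt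
  have hC := ((hA.sub hB).const_mul ((ε ^ 2)⁻¹)).neg
  have hD : fderiv ℝ (fun x => fderiv ℝ (NL K ε) x w) y = -((ε ^ 2)⁻¹ •
      ((fderiv ℝ (avg K ε (fun z => inner ℝ z w)) y) - (innerSL ℝ w))) := by
    rw [h]
    exact hC.fderiv
  rw [hD]
  simp only [neg_apply, smul_apply, sub_apply, smul_eq_mul]
  rw [fderiv_avg_apply hε hK.meas hK.sub hK.vol0 m1 hM, innerSL_apply_apply,
    real_inner_comm v w]
  haveI := isProb_PP hε hK.meas hK.vol0 y
  have b1 : BM K (fun z : E => inner ℝ z w * inner ℝ z v) := (bm_inner hK w).mul (bm_inner hK v)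
  have e1 : ∫ x, inner ℝ x w * inner ℝ (x - y) v ∂(PP K ε y) =
      (∫ x, inner ℝ x w * inner ℝ x v ∂(PP K ε y)) - (∫ x, inner ℝ x w ∂(PP K ε y)) * inner ℝ y v := by
    rw [← integral_mul_const, ← MeasureTheory.integral_sub (b1.integrable_PP hε hK y)
      (((bm_inner hK w).integrable_PP hε hK y).mul_const _)]
    congr 1
    ext x
    rw [inner_sub_left]
    ring
  have e2 : ∫ x, inner ℝ (x - y) v ∂(PP K ε y) =
      (∫ x, inner ℝ x v ∂(PP K ε y)) - inner ℝ y v := by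
    have e : ∀ x : E, inner ℝ (x - y) v = inner ℝ x v - inner ℝ y v := fun x => inner_sub_left _ _ _
    simp only [e]
    rw [MeasureTheory.integral_sub ((bm_inner hK v).integrable_PP hε hK _) (integrable_const _)]
    simp
  rw [e1, e2, ← integral_PP hε hK.meas hK.vol0, ← integral_PP hε hK.meas hK.vol0,
    ← integral_PP hε hK.meas hK.vol0]
  ring

theorem abs_hess_NL (hε : 0 < ε) (hK : CB K R) (y v w : E) :
    |fderiv ℝ (fderiv ℝ (NL K ε)) y v w| ≤
      ((ε ^ 2)⁻¹ * ((ε ^ 2)⁻¹ * (2 * R ^ 2) + 1)) * (‖v‖ * ‖w‖) := by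
  rw [hess_NL_apply hε hK, abs_neg, abs_mul]
  have h3 : 0 < (ε ^ 2)⁻¹ := by positivity
  rw [abs_of_pos h3]
  have hin : ∀ u : E, ∀ z ∈ K, |(inner ℝ z u : ℝ)| ≤ |R| * ‖u‖ := by
    intro u z hz
    refine (abs_real_inner_le_norm _ _).trans ?_
    have hz' : ‖z‖ ≤ R := by simpa using hK.sub hz
    exact mul_le_mul_of_nonneg_right (hz'.trans (le_abs_self R)) (norm_nonneg _)
  have h1 : |avg K ε (fun z => inner ℝ z w * inner ℝ z v) y| ≤ R ^ 2 * (‖v‖ * ‖w‖) := by
    apply abs_avg_le hε hK.meas hK.vol0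
    intro z hz
    rw [abs_mul]
    calc |(inner ℝ z w : ℝ)| * |(inner ℝ z v : ℝ)| ≤ (|R| * ‖w‖) * (|R| * ‖v‖) :=
          mul_le_mul (hin w z hz) (hin v z hz) (abs_nonneg _) (by positivity)
      _ = |R| ^ 2 * (‖v‖ * ‖w‖) := by ring
      _ = _ := by rw [sq_abs]
  have h2 : |avg K ε (fun z => inner ℝ z w) y * avg K ε (fun z => inner ℝ z v) y| ≤
      R ^ 2 * (‖v‖ * ‖w‖) := by
    rw [abs_mul]
    have h4 := abs_avg_le hε hK.meas hK.vol0 (hin w) y
    have h5 := abs_avg_le hε hK.meas hK.vol0 (hin v) y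
    calc _ ≤ (|R| * ‖w‖) * (|R| * ‖v‖) := mul_le_mul h4 h5 (abs_nonneg _) (by positivity)
      _ = |R| ^ 2 * (‖v‖ * ‖w‖) := by ring
      _ = _ := by rw [sq_abs]
  have h6 : |(inner ℝ v w : ℝ)| ≤ ‖v‖ * ‖w‖ := abs_real_inner_le_norm _ _
  have h7 : |(ε ^ 2)⁻¹ * (avg K ε (fun z => inner ℝ z w * inner ℝ z v) y -
        avg K ε (fun z => inner ℝ z w) y * avg K ε (fun z => inner ℝ z v) y) - inner ℝ v w| ≤
      (ε ^ 2)⁻¹ * (R ^ 2 * (‖v‖ * ‖w‖) + R ^ 2 * (‖v‖ * ‖w‖)) + ‖v‖ * ‖w‖ := by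
    refine (abs_sub _ _).trans (add_le_add ?_ h6)
    rw [abs_mul, abs_of_pos h3]
    exact mul_le_mul_of_nonneg_left ((abs_sub _ _).trans (add_le_add h1 h2)) h3.le
  calc _ ≤ (ε ^ 2)⁻¹ * ((ε ^ 2)⁻¹ * (R ^ 2 * (‖v‖ * ‖w‖) + R ^ 2 * (‖v‖ * ‖w‖)) + ‖v‖ * ‖w‖) :=
        mul_le_mul_of_nonneg_left h7 h3.le
    _ = _ := by ring

/-- The quadratic form in the directions of `Sᗮ`. -/
theorem PUS_eq (K : Set E) (S : Submodule ℝ E) (r : ℝ) (j : ℕ) : PUS K S r j = fun x =>
    NL K (1 / ((j:ℝ) + 1)) x + QP (1 / ((j:ℝ) + 1)) x +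
      QP (1 / r ^ 2) (Sᗮ.orthogonalProjectionOnto x) := by
  ext x
  rw [PUS, PU_eq]
  simp only [QP]
  congr 1
  rcases eq_or_ne r 0 with h | h
  · simp [h]
  · field_simp

theorem contDiff_PUS (hK : CB K R) (S : Submodule ℝ E) (r : ℝ) (j : ℕ) :
    ContDiff ℝ 2 (PUS K S r j) := by
  rw [PUS_eq]
  have h1 := contDiff_NL (K := K) (R := R) (ε := 1 / ((j:ℝ) + 1)) (by positivity) hK
  have h2 : ContDiff ℝ 2 (QP (E := E) (1 / ((j:ℝ) + 1))) := contDiff_infty.1 (contDiff_QP _) 2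
  have h3 : ContDiff ℝ 2 (QP (E := Sᗮ) (1 / r ^ 2)) := contDiff_infty.1 (contDiff_QP _) 2
  exact (h1.add h2).add (h3.comp (Sᗮ.orthogonalProjectionOnto).contDiff)

theorem fderiv_PUS (hK : CB K R) (S : Submodule ℝ E) (r : ℝ) (j : ℕ) (x v : E) :
    fderiv ℝ (PUS K S r j) x v = fderiv ℝ (NL K (1 / ((j:ℝ) + 1))) x v +
      1 / ((j:ℝ) + 1) * inner ℝ x v +
      1 / r ^ 2 * inner ℝ (Sᗮ.orthogonalProjectionOnto x) (Sᗮ.orthogonalProjectionOnto v) := by
  rw [PUS_eq]
  have h1 := (differentiable_NL (K := K) (R := R) (ε := 1 / ((j:ℝ) + 1)) (by positivity) hK x).hasFDerivAt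
  have h2 := hasFDerivAt_QP (E := E) (1 / ((j:ℝ) + 1)) x
  have h3 := (hasFDerivAt_QP (E := Sᗮ) (1 / r ^ 2) (Sᗮ.orthogonalProjectionOnto x)).comp x
    (Sᗮ.orthogonalProjectionOnto).hasFDerivAt
  have h4 := ((h1.add h2).add h3).fderiv
  have h5 : fderiv ℝ (fun x => NL K (1 / ((j:ℝ) + 1)) x + QP (1 / ((j:ℝ) + 1)) x +
      QP (1 / r ^ 2) (Sᗮ.orthogonalProjectionOnto x)) x = _ := h4
  rw [h5]
  simp

theorem hess_PUS (hK : CB K R) (S : Submodule ℝ E) (r : ℝ) (j : ℕ) (x v w : E) :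
    fderiv ℝ (fderiv ℝ (PUS K S r j)) x v w =
      fderiv ℝ (fderiv ℝ (NL K (1 / ((j:ℝ) + 1)))) x v w + 1 / ((j:ℝ) + 1) * inner ℝ v w +
      1 / r ^ 2 * inner ℝ (Sᗮ.orthogonalProjectionOnto v) (Sᗮ.orthogonalProjectionOnto w) := by
  have hε : (0:ℝ) < 1 / ((j:ℝ) + 1) := by positivity
  rw [second_apply' (contDiff_PUS hK S r j), second_apply' (contDiff_NL hε hK)]
  have e : (fun y => fderiv ℝ (PUS K S r j) y w) = fun y =>
      fderiv ℝ (NL K (1 / ((j:ℝ) + 1))) y w + 1 / ((j:ℝ) + 1) * inner ℝ y w +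
      1 / r ^ 2 * inner ℝ (Sᗮ.orthogonalProjectionOnto y) (Sᗮ.orthogonalProjectionOnto w) := by
    ext y
    exact fderiv_PUS hK S r j y w
  rw [e]
  have hd1 : DifferentiableAt ℝ (fun y => fderiv ℝ (NL K (1 / ((j:ℝ) + 1))) y w) x := by
    have h1 : ContDiff ℝ 1 (fun y => fderiv ℝ (NL K (1 / ((j:ℝ) + 1))) y w) :=
      ((contDiff_NL hε hK).fderiv_right (m := 1) (by norm_num)).clm_apply contDiff_const
    exact (h1.differentiable one_ne_zero) x
  have hB : HasFDerivAt (fun x : E => (inner ℝ x w : ℝ)) (innerSL ℝ w) x := by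
    have e : (fun x : E => (inner ℝ x w : ℝ)) = fun x => innerSL ℝ w x := by
      ext z
      rw [innerSL_apply_apply, real_inner_comm]
    rw [e]
    exact (innerSL ℝ w).hasFDerivAt
  have hB' : HasFDerivAt (fun y : E => (inner ℝ (Sᗮ.orthogonalProjectionOnto y)
      (Sᗮ.orthogonalProjectionOnto w) : ℝ)) ((innerSL ℝ (Sᗮ.orthogonalProjectionOnto w)).comp
        (Sᗮ.orthogonalProjectionOnto)) x := by
    have e : (fun y : E => (inner ℝ (Sᗮ.orthogonalProjectionOnto y)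
      (Sᗮ.orthogonalProjectionOnto w) : ℝ)) = fun y =>
        ((innerSL ℝ (Sᗮ.orthogonalProjectionOnto w)).comp (Sᗮ.orthogonalProjectionOnto)) y := by
      ext z
      rw [ContinuousLinearMap.comp_apply, innerSL_apply_apply, real_inner_comm]
    rw [e]
    exact ((innerSL ℝ (Sᗮ.orthogonalProjectionOnto w)).comp
      (Sᗮ.orthogonalProjectionOnto)).hasFDerivAt
  have h4 := ((hd1.hasFDerivAt.add (hB.const_mul (1 / ((j:ℝ) + 1)))).add
    (hB'.const_mul (1 / r ^ 2))).fderiv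
  have h5 : fderiv ℝ (fun y =>
      fderiv ℝ (NL K (1 / ((j:ℝ) + 1))) y w + 1 / ((j:ℝ) + 1) * inner ℝ y w +
      1 / r ^ 2 * inner ℝ (Sᗮ.orthogonalProjectionOnto y) (Sᗮ.orthogonalProjectionOnto w)) x = _ := h4
  rw [h5]
  simp only [add_apply, smul_apply, ContinuousLinearMap.comp_apply, innerSL_apply_apply,
    smul_eq_mul]
  rw [real_inner_comm w v, real_inner_comm (Sᗮ.orthogonalProjectionOnto w)]

theorem hess_NL_nonneg (hε : 0 < ε) (hK : CB K R) (x v : E) :
    0 ≤ fderiv ℝ (fderiv ℝ (NL K ε)) x v v := by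
  rw [second_apply' (contDiff_NL hε hK)]
  exact hess_NL hε hK x v

theorem proj_isom (S : Submodule ℝ E) (g : E ≃ₗᵢ[ℝ] E) (hg : ∀ z ∈ Sᗮ, g z = z) (x : E) :
    Sᗮ.orthogonalProjectionOnto (g x) = Sᗮ.orthogonalProjectionOnto x := by
  apply ext_inner_right ℝ
  intro z
  rw [Submodule.inner_orthogonalProjectionOnto_eq_of_mem_right,
    Submodule.inner_orthogonalProjectionOnto_eq_of_mem_right]
  conv_lhs => rw [← hg z z.2]
  exact g.inner_map_map _ _

end Q3

open Q3 L1 in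
/-- The approximating potentials satisfy the hypotheses of `pot_main2`. -/
theorem PUS_spec {K : Set E} {R : ℝ} (hK : CB K R) (S : Submodule ℝ E) {r : ℝ} (hr : 0 < r)
    (j : ℕ) : (∃ t C : ℝ, Pot (PUS K S r j) t C) ∧
      (∃ C₂ : ℝ, ∀ x, ‖fderiv ℝ (fderiv ℝ (PUS K S r j)) x‖ ≤ C₂) ∧
      (∀ x v : E, 1 / r ^ 2 * ‖Sᗮ.orthogonalProjectionOnto v‖ ^ 2 ≤
        fderiv ℝ (fderiv ℝ (PUS K S r j)) x v v) ∧
      ∀ g : E ≃ₗᵢ[ℝ] E, g '' K = K → (∀ z ∈ Sᗮ, g z = z) →
        ∀ x, PUS K S r j (g x) = PUS K S r j x := by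
  have hε : (0:ℝ) < 1 / ((j:ℝ) + 1) := by positivity
  have hδ : 0 < 1 / r ^ 2 := by positivity
  have hP : ∀ v : E, ‖Sᗮ.orthogonalProjectionOnto v‖ ≤ ‖v‖ := fun v =>
    Sᗮ.norm_orthogonalProjectionOnto_apply_le v
  refine ⟨⟨1 / ((j:ℝ) + 1), ?_⟩, ?_, ?_, ?_⟩
  · obtain ⟨C, hC⟩ := PU_pot hK hε hε
    have hC0 : 0 ≤ C := by
      have := (norm_nonneg _).trans (hC.grad 0)
      simpa using this
    refine ⟨C + 1 / r ^ 2, contDiff_PUS hK S r j, hε, ?_, ?_⟩
    · intro x v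
      rw [hess_PUS hK, real_inner_self_eq_norm_sq, real_inner_self_eq_norm_sq]
      have h1 := hess_NL_nonneg hε hK x v
      have h2 : 0 ≤ 1 / r ^ 2 * ‖Sᗮ.orthogonalProjectionOnto v‖ ^ 2 := by positivity
      linarith
    · intro x
      apply ContinuousLinearMap.opNorm_le_bound _ (by positivity)
      intro v
      have h1 : fderiv ℝ (PUS K S r j) x v =
          fderiv ℝ (PU K (1 / ((j:ℝ) + 1)) (1 / ((j:ℝ) + 1))) x v + 1 / r ^ 2 *
            inner ℝ (Sᗮ.orthogonalProjectionOnto x) (Sᗮ.orthogonalProjectionOnto v) := by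
        rw [fderiv_PUS hK, PU_eq]
        have h2 := (differentiable_NL hε hK x).hasFDerivAt.add (hasFDerivAt_QP (1 / ((j:ℝ) + 1)) x)
        have h3 : fderiv ℝ (fun x => NL K (1 / ((j:ℝ) + 1)) x + QP (1 / ((j:ℝ) + 1)) x) x = _ :=
          h2.fderiv
        rw [h3]
        simp
      rw [h1, Real.norm_eq_abs]
      have h2 : |fderiv ℝ (PU K (1 / ((j:ℝ) + 1)) (1 / ((j:ℝ) + 1))) x v| ≤
          C * (1 + ‖x‖) * ‖v‖ := by
        rw [← Real.norm_eq_abs]
        exact (ContinuousLinearMap.le_opNorm _ _).trans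
          (mul_le_mul_of_nonneg_right (hC.grad x) (norm_nonneg _))
      have h3 : |(inner ℝ (Sᗮ.orthogonalProjectionOnto x) (Sᗮ.orthogonalProjectionOnto v) : ℝ)| ≤
          ‖x‖ * ‖v‖ := (abs_real_inner_le_norm _ _).trans
            (mul_le_mul (hP x) (hP v) (norm_nonneg _) (norm_nonneg _))
      calc _ ≤ |fderiv ℝ (PU K (1 / ((j:ℝ) + 1)) (1 / ((j:ℝ) + 1))) x v| + |1 / r ^ 2 *
            inner ℝ (Sᗮ.orthogonalProjectionOnto x) (Sᗮ.orthogonalProjectionOnto v)| :=
            abs_add_le _ _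
        _ ≤ C * (1 + ‖x‖) * ‖v‖ + 1 / r ^ 2 * (‖x‖ * ‖v‖) := by
            rw [abs_mul, abs_of_pos hδ]
            gcongr
        _ ≤ _ := by
            have h4 : 0 ≤ 1 / r ^ 2 * ‖v‖ := by positivity
            have h5 : (C + 1 / r ^ 2) * (1 + ‖x‖) * ‖v‖ - (C * (1 + ‖x‖) * ‖v‖ +
              1 / r ^ 2 * (‖x‖ * ‖v‖)) = 1 / r ^ 2 * ‖v‖ := by ring
            linarith
  · refine ⟨((((1 / ((j:ℝ) + 1)) ^ 2)⁻¹ * (((1 / ((j:ℝ) + 1)) ^ 2)⁻¹ * (2 * R ^ 2) + 1))) +
      1 / ((j:ℝ) + 1) + 1 / r ^ 2, fun x => ?_⟩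
    apply ContinuousLinearMap.opNorm_le_bound _ (by positivity)
    intro v
    apply ContinuousLinearMap.opNorm_le_bound _ (by positivity)
    intro w
    rw [hess_PUS hK, Real.norm_eq_abs]
    have h1 := abs_hess_NL hε hK x v w
    have h2 : |(inner ℝ v w : ℝ)| ≤ ‖v‖ * ‖w‖ := abs_real_inner_le_norm _ _
    have h3 : |(inner ℝ (Sᗮ.orthogonalProjectionOnto v) (Sᗮ.orthogonalProjectionOnto w) : ℝ)| ≤
        ‖v‖ * ‖w‖ := (abs_real_inner_le_norm _ _).trans
          (mul_le_mul (hP v) (hP w) (norm_nonneg _) (norm_nonneg _))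
    refine (abs_add_three _ _ _).trans ?_
    rw [abs_mul, abs_mul, abs_of_pos hε, abs_of_pos hδ]
    have h4 := mul_le_mul_of_nonneg_left h2 hε.le
    have h5 := mul_le_mul_of_nonneg_left h3 hδ.le
    rw [mul_assoc (_ + _ + _), add_mul, add_mul]
    linarith
  · intro x v
    rw [hess_PUS hK, real_inner_self_eq_norm_sq, real_inner_self_eq_norm_sq]
    have h1 := hess_NL_nonneg hε hK x v
    have h2 : 0 ≤ 1 / ((j:ℝ) + 1) * ‖v‖ ^ 2 := by positivity
    linarith
  · intro g hg hz x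
    rw [PUS, PUS, PU_inv hK hε _ g hg, proj_isom S g hz]

namespace Q3

section Gauss

variable {F : Type*} [NormedAddCommGroup F] [InnerProductSpace ℝ F] [FiniteDimensional ℝ F]
    [MeasurableSpace F] [BorelSpace F]

theorem exp_kern_le (B : ℝ) {δ : ℝ} (hδ : 0 < δ) (v : F) :
    Real.exp (B * ‖v‖) * kern δ v 0 ≤ Real.exp (B ^ 2 * δ ^ 2) * kern (Real.sqrt 2 * δ) v 0 := by
  simp only [kern, sub_zero]
  rw [← Real.exp_add, ← Real.exp_add]
  apply Real.exp_le_exp.2
  rw [mul_pow, Real.sq_sqrt (by norm_num)]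
  have h1 : 0 ≤ (B * δ - ‖v‖ / (2 * δ)) ^ 2 := sq_nonneg _
  have h2 : (B * δ - ‖v‖ / (2 * δ)) ^ 2 = B ^ 2 * δ ^ 2 - B * ‖v‖ + ‖v‖ ^ 2 / (4 * δ ^ 2) := by
    field_simp
    ring
  have h3 : -‖v‖ ^ 2 / (2 * δ ^ 2) = -(‖v‖ ^ 2 / (4 * δ ^ 2)) - ‖v‖ ^ 2 / (4 * δ ^ 2) := by
    field_simp
    ring
  have h4 : -‖v‖ ^ 2 / (2 * (2 * δ ^ 2)) = -(‖v‖ ^ 2 / (4 * δ ^ 2)) := by
    field_simp
    ring
  rw [h3, h4]
  linarith

theorem integrable_exp_kern (B : ℝ) {δ : ℝ} (hδ : 0 < δ) :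
    Integrable (fun v : F => Real.exp (B * ‖v‖) * kern δ v 0) := by
  have h1 : Integrable (fun v : F => Real.exp (B ^ 2 * δ ^ 2) * kern (Real.sqrt 2 * δ) v 0) :=
    (integrable_kern (by positivity) 0).const_mul _
  refine h1.mono' ?_ (Eventually.of_forall fun v => ?_)
  · have : Continuous (fun v : F => Real.exp (B * ‖v‖) * kern δ v 0) := by
      unfold kern; fun_prop
    exact this.aestronglyMeasurable
  · rw [Real.norm_eq_abs, abs_of_nonneg (mul_nonneg (Real.exp_pos _).le (kern_pos _ _ _).le)]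
    exact exp_kern_le B hδ v

theorem integrable_sq_kern {δ : ℝ} (hδ : 0 < δ) :
    Integrable (fun v : F => ‖v‖ ^ 2 * kern δ v 0) := by
  have h1 := (integrable_exp_kern (F := F) 1 hδ).const_mul 2
  refine h1.mono' ?_ (Eventually.of_forall fun v => ?_)
  · have : Continuous (fun v : F => ‖v‖ ^ 2 * kern δ v 0) := by
      unfold kern; fun_prop
    exact this.aestronglyMeasurable
  · rw [Real.norm_eq_abs, abs_of_nonneg (mul_nonneg (by positivity) (kern_pos _ _ _).le), ← mul_assoc]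
    refine mul_le_mul_of_nonneg_right ?_ (kern_pos _ _ _).le
    have h2 := Real.quadratic_le_exp_of_nonneg (norm_nonneg v)
    rw [one_mul]
    nlinarith [norm_nonneg v]

/-- Scaling of radial integrals. -/
theorem radial_scale (φ : ℝ → ℝ) {δ : ℝ} (hδ : 0 < δ) :
    ∫ v : F, φ ‖v‖ * kern δ v 0 =
      δ ^ Module.finrank ℝ F * ∫ w : F, φ (δ * ‖w‖) * kern 1 w 0 := by
  have h2 := Measure.integral_comp_smul (volume : Measure F)
    (fun w => φ (δ * ‖w‖) * kern 1 w (0 : F)) δ⁻¹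
  rw [inv_pow, inv_inv, abs_of_pos (by positivity), smul_eq_mul] at h2
  rw [← h2]
  congr 1
  ext v
  have h3 : δ * ‖δ⁻¹ • v‖ = ‖v‖ := by
    rw [norm_smul, Real.norm_eq_abs, abs_of_pos (by positivity)]
    field_simp
  rw [h3, kern, kern, sub_zero, sub_zero, norm_smul, Real.norm_eq_abs, abs_of_pos (by positivity)]
  congr 2
  field_simp

/-- The elementary inequality between the Gaussian moments. -/
theorem moments (F : Type*) [NormedAddCommGroup F] [InnerProductSpace ℝ F] [FiniteDimensional ℝ F]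
    [MeasurableSpace F] [BorelSpace F] (B R : ℝ) : ∀ᶠ j : ℕ in atTop,
    2 * (∫ v : F, Real.exp (B * ‖v‖) * kern (1 / ((j:ℝ) + 1)) v 0) ≤
      3 * ((1 - 1 / ((j:ℝ) + 1) * R ^ 2) * (∫ v : F, kern (1 / ((j:ℝ) + 1)) v 0) -
        1 / ((j:ℝ) + 1) * ∫ v : F, ‖v‖ ^ 2 * kern (1 / ((j:ℝ) + 1)) v 0) := by
  set g0 := ∫ w : F, kern 1 w 0 with hg0
  set g2 := ∫ w : F, ‖w‖ ^ 2 * kern 1 w 0 with hg2
  set h1 := ∫ w : F, Real.exp (B * ‖w‖) * kern 1 w 0 with hh1
  have hg0' : 0 < g0 := cE_pos (E := F) one_pos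
  have hg2' : 0 ≤ g2 := integral_nonneg fun w => mul_nonneg (by positivity) (kern_pos _ _ _).le
  have ht : Tendsto (fun j : ℕ => 1 / ((j:ℝ) + 1) * (2 * h1 + 3 * R ^ 2 * g0 + 3 * g2)) atTop
      (𝓝 (0 * (2 * h1 + 3 * R ^ 2 * g0 + 3 * g2))) :=
    tendsto_one_div_add_atTop_nhds_zero_nat.mul_const _
  rw [zero_mul] at ht
  filter_upwards [ht.eventually_le_const hg0'] with j hj
  set ε : ℝ := 1 / ((j:ℝ) + 1) with hε
  have hε0 : 0 < ε := by positivity
  have hε1 : ε ≤ 1 := by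
    rw [hε, div_le_one (by positivity)]
    linarith [Nat.cast_nonneg (α := ℝ) j]
  have e1 : ∫ v : F, Real.exp (B * ‖v‖) * kern ε v 0 = ε ^ Module.finrank ℝ F *
      ∫ w : F, Real.exp (B * (ε * ‖w‖)) * kern 1 w 0 :=
    radial_scale (fun t => Real.exp (B * t)) hε0
  have e0 : ∫ v : F, kern ε v 0 = ε ^ Module.finrank ℝ F * g0 := by
    have := radial_scale (F := F) (fun t => 1) hε0
    simpa using this
  have e2 : ∫ v : F, ‖v‖ ^ 2 * kern ε v 0 = ε ^ Module.finrank ℝ F * (ε ^ 2 * g2) := by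
    have := radial_scale (F := F) (fun t => t ^ 2) hε0
    rw [this, hg2]
    have h3 : ∀ w : F, (ε * ‖w‖) ^ 2 * kern 1 w 0 = ε ^ 2 * (‖w‖ ^ 2 * kern 1 w 0) := by
      intro w; ring
    simp only [h3]
    rw [integral_const_mul]
  have e3 : ∫ w : F, Real.exp (B * (ε * ‖w‖)) * kern 1 w 0 ≤ (1 - ε) * g0 + ε * h1 := by
    have i1 := integrable_exp_kern (F := F) (B * ε) one_pos
    have i2 := integrable_exp_kern (F := F) B one_pos
    have i0 := integrable_kern (E := F) one_pos 0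
    rw [hg0, hh1, ← integral_const_mul, ← integral_const_mul, ← integral_add (i0.const_mul _)
      (i2.const_mul _)]
    refine integral_mono ?_ ((i0.const_mul _).add (i2.const_mul _)) fun w => ?_
    · refine i1.congr (Eventually.of_forall fun w => ?_)
      simp only []
      rw [mul_assoc]
    · have hc := convexOn_exp.2 (mem_univ (0:ℝ)) (mem_univ (B * ‖w‖)) (by linarith : 0 ≤ 1 - ε)
        hε0.le (by ring)
      simp only [smul_eq_mul, mul_zero, zero_add, Real.exp_zero, mul_one] at hc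
      have h3 : B * (ε * ‖w‖) = ε * (B * ‖w‖) := by ring
      have h4 := mul_le_mul_of_nonneg_right hc (kern_pos 1 w 0).le
      simp only []
      rw [h3]
      linarith
  rw [e1, e0, e2]
  have hp : 0 < ε ^ Module.finrank ℝ F := by positivity
  have key : 2 * (∫ w : F, Real.exp (B * (ε * ‖w‖)) * kern 1 w 0) ≤
      3 * ((1 - ε * R ^ 2) * g0 - ε * (ε ^ 2 * g2)) := by
    have h5 : ε * (ε ^ 2 * g2) ≤ ε * g2 := by
      have : ε ^ 2 ≤ 1 := by nlinarith
      exact mul_le_mul_of_nonneg_left (by nlinarith) hε0.le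
    have h6 : 0 ≤ ε * g0 := by positivity
    nlinarith
  have h7 := mul_le_mul_of_nonneg_left key hp.le
  nlinarith

end Gauss

variable {K : Set E} {R ε : ℝ}

theorem proj_add (S : Submodule ℝ E) (x : S) (z : Sᗮ) :
    Sᗮ.orthogonalProjectionOnto ((x : E) + (z : E)) = z := by
  rw [map_add, Submodule.orthogonalProjectionOnto_orthogonal_apply_eq_zero x.2, zero_add,
    Submodule.orthogonalProjectionOnto_mem_subspace_eq_self]

theorem projS_add (S : Submodule ℝ E) (x : S) (z : Sᗮ) :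
    S.orthogonalProjectionOnto ((x : E) + (z : E)) = x := by
  rw [map_add, Submodule.orthogonalProjectionOnto_apply_of_mem_orthogonal z.2, add_zero,
    Submodule.orthogonalProjectionOnto_mem_subspace_eq_self]

theorem projP_add {S P : Submodule ℝ E} (hPS : P ≤ S) (x : E) (z : Sᗮ) :
    P.orthogonalProjectionOnto (x + (z : E)) = P.orthogonalProjectionOnto x := by
  rw [map_add, Submodule.orthogonalProjectionOnto_apply_of_mem_orthogonal
    (Submodule.orthogonal_le hPS z.2), add_zero]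

theorem projP_projS {S P : Submodule ℝ E} (hPS : P ≤ S) (y : E) :
    P.orthogonalProjectionOnto (S.orthogonalProjectionOnto y : E) =
      P.orthogonalProjectionOnto y := by
  have h := Submodule.orthogonalProjectionOnto_starProjection_of_le hPS y
  rwa [Submodule.starProjection_apply] at h

theorem kern_split (S : Submodule ℝ E) (y : E) (x : S) (z : Sᗮ) :
    kern ε y ((x : E) + (z : E)) = kern ε (S.orthogonalProjectionOnto y) x *
      kern ε (Sᗮ.orthogonalProjectionOnto y) z := by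
  have h := Submodule.norm_sq_eq_add_norm_sq_projection (𝕜 := ℝ) (y - ((x : E) + (z : E))) S
  rw [map_sub, map_sub, proj_add, projS_add] at h
  rw [kern, kern, kern, ← Real.exp_add, h]
  congr 1
  ring

/-- The Gaussian weight of the fibres. -/
noncomputable def JJ (K : Set E) (S : Submodule ℝ E) (ε : ℝ) (z : Sᗮ) : ℝ :=
  ∫ y in K, kern ε (Sᗮ.orthogonalProjectionOnto y) z

theorem fubini (hK : CB K R) (S : Submodule ℝ E) (ε : ℝ) (z : Sᗮ) {φ : S → ℝ} (hφ : Integrable φ)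
    : (∫ x : S, φ x * ZZ K ε ((x : E) + (z : E)) =
        ∫ y in K, ∫ x : S, φ x * kern ε y ((x : E) + (z : E))) ∧
      Integrable (fun y => ∫ x : S, φ x * kern ε y ((x : E) + (z : E))) (volume.restrict K) := by
  haveI : IsFiniteMeasure (volume.restrict K) := ⟨by rw [Measure.restrict_apply_univ]; exact hK.lt_top⟩
  have hI : Integrable (fun p : S × E => φ p.1 * kern ε p.2 ((p.1 : E) + (z : E)))
      ((volume : Measure S).prod (volume.restrict K)) := by
    refine (hφ.comp_fst (volume.restrict K)).mul_bdd (c := 1) ?_ (Eventually.of_forall fun p => ?_)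
    · have : Continuous (fun p : S × E => kern ε p.2 ((p.1 : E) + (z : E))) := by
        unfold kern; fun_prop
      exact this.aestronglyMeasurable
    · rw [Real.norm_eq_abs, abs_of_pos (kern_pos _ _ _)]
      exact kern_le_one _ _ _
  constructor
  · have h := integral_integral_swap (f := fun (x : S) (y : E) => φ x * kern ε y ((x : E) + (z : E)))
      (μ := (volume : Measure S)) (ν := volume.restrict K) hI
    rw [← h]
    congr 1
    ext x
    rw [ZZ, integral_const_mul]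
  · exact hI.integral_prod_right

/-- Integration over the sections. -/
theorem sections (hK : CB K R) (S : Submodule ℝ E) (z : Sᗮ) {ψ : E → ℝ} (hψ : Continuous ψ)
    (hψz : ∀ (s : S) (w : Sᗮ), ψ ((s : E) + (w : E)) = ψ s) :
    ∫ y in K, kern ε (Sᗮ.orthogonalProjectionOnto y) z * ψ y =
      ∫ w : Sᗮ, kern ε w z * ∫ s : S in {s : S | (s : E) + (w : E) ∈ K}, ψ (s : E) ∧
    Integrable (fun w : Sᗮ => kern ε w z * ∫ s : S in {s : S | (s : E) + (w : E) ∈ K}, ψ (s : E)) := by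
  have hc : Continuous (fun y : E => kern ε (Sᗮ.orthogonalProjectionOnto y) z * ψ y) := by
    unfold kern; fun_prop
  obtain ⟨M, hM⟩ := hK.bdd_of_cont hc
  have hI : Integrable (K.indicator (fun y : E => kern ε (Sᗮ.orthogonalProjectionOnto y) z * ψ y)) := by
    rw [integrable_indicator_iff hK.meas]
    refine Measure.integrableOn_of_bounded (M := M) hK.lt_top.ne hc.aestronglyMeasurable ?_
    exact (ae_restrict_iff' hK.meas).2 (Eventually.of_forall fun y hy => hM y hy)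
  obtain ⟨h1, h2⟩ := G2aux.integral_decomp S hI
  have h3 : ∀ w : Sᗮ, (∫ s : S, K.indicator (fun y : E => kern ε (Sᗮ.orthogonalProjectionOnto y) z * ψ y)
      ((s : E) + (w : E))) = kern ε w z * ∫ s : S in {s : S | (s : E) + (w : E) ∈ K}, ψ (s : E) := by
    intro w
    have hm : MeasurableSet {s : S | (s : E) + (w : E) ∈ K} := by
      have : Measurable (fun s : S => (s : E) + (w : E)) := by fun_prop
      exact this hK.meas
    rw [← integral_const_mul, ← integral_indicator hm]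
    congr 1
    ext s
    by_cases hs : (s : E) + (w : E) ∈ K
    · rw [indicator_of_mem hs, indicator_of_mem (by exact hs), proj_add, hψz]
    · rw [indicator_of_notMem hs, indicator_of_notMem (by exact hs)]
  simp only [h3] at h1 h2
  rw [integral_indicator hK.meas] at h1
  exact ⟨h1, h2⟩

theorem exp_sq_le (hε : 0 < ε) {B : ℝ} (t : ℝ) :
    Real.exp (B * t) * Real.exp (-(ε * t ^ 2 / 2)) ≤
      Real.exp (B ^ 2 / ε) * Real.exp (-(ε * t ^ 2 / 4)) := by
  rw [← Real.exp_add, ← Real.exp_add]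
  apply Real.exp_le_exp.2
  have h1 : 0 ≤ (B - ε * t / 2) ^ 2 / ε := by positivity
  have h2 : (B - ε * t / 2) ^ 2 / ε = B ^ 2 / ε - B * t + ε * t ^ 2 / 4 := by
    field_simp
    ring
  linarith

theorem integrable_gs (F : Type*) [NormedAddCommGroup F] [InnerProductSpace ℝ F]
    [FiniteDimensional ℝ F] [MeasurableSpace F] [BorelSpace F] {a : ℝ} (ha : 0 < a) :
    Integrable (fun x : F => Real.exp (-(a * ‖x‖ ^ 2))) := by
  have h := integrable_kern (E := F) (δ := Real.sqrt (1 / (2 * a))) (by positivity) 0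
  refine h.congr (Eventually.of_forall fun x => ?_)
  simp only [kern, sub_zero]
  rw [Real.sq_sqrt (by positivity)]
  congr 1
  field_simp

theorem integrable_phi1 (hε : 0 < ε) (S P : Submodule ℝ E) (B : ℝ) (hB : 0 ≤ B) :
    Integrable (fun x : S => Real.exp (B * ‖P.orthogonalProjectionOnto (x : E)‖) *
      Real.exp (-(ε * ‖x‖ ^ 2 / 2))) := by
  have h1 := (integrable_gs S (a := ε / 4) (by positivity)).const_mul (Real.exp (B ^ 2 / ε))
  refine h1.mono' ?_ (Eventually.of_forall fun x => ?_)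
  · have : Continuous (fun x : S => Real.exp (B * ‖P.orthogonalProjectionOnto (x : E)‖) *
      Real.exp (-(ε * ‖x‖ ^ 2 / 2))) := by fun_prop
    exact this.aestronglyMeasurable
  · rw [Real.norm_eq_abs, abs_of_pos (mul_pos (Real.exp_pos _) (Real.exp_pos _))]
    have h2 : ‖P.orthogonalProjectionOnto (x : E)‖ ≤ ‖x‖ := P.norm_orthogonalProjectionOnto_apply_le _
    have h3 := exp_sq_le hε (B := B) ‖x‖
    have h4 : -(ε / 4 * ‖x‖ ^ 2) = -(ε * ‖x‖ ^ 2 / 4) := by ring
    rw [h4]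
    refine le_trans ?_ h3
    gcongr

/-- Upper bound for the inner integral. -/
theorem inner_upper (hε : 0 < ε) {S P : Submodule ℝ E} (hPS : P ≤ S) {B : ℝ} (hB : 0 ≤ B) (z : Sᗮ)
    (y : E) :
    ∫ x : S, (Real.exp (B * ‖P.orthogonalProjectionOnto (x : E)‖) *
      Real.exp (-(ε * ‖x‖ ^ 2 / 2))) * kern ε y ((x : E) + (z : E)) ≤
    (∫ v : S, Real.exp (B * ‖v‖) * kern ε v 0) * (kern ε (Sᗮ.orthogonalProjectionOnto y) z *
      Real.exp (B * ‖P.orthogonalProjectionOnto y‖)) := by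
  set yS : S := S.orthogonalProjectionOnto y with hyS
  have e1 : ∫ v : S, Real.exp (B * ‖v‖) * kern ε v 0 =
      ∫ x : S, Real.exp (B * ‖x - yS‖) * kern ε (x - yS) 0 :=
    (integral_sub_right_eq_self (fun v : S => Real.exp (B * ‖v‖) * kern ε v 0) yS).symm
  rw [e1, ← integral_mul_const]
  have i1 : Integrable (fun x : S => (Real.exp (B * ‖x - yS‖) * kern ε (x - yS) 0) *
      (kern ε (Sᗮ.orthogonalProjectionOnto y) z *
      Real.exp (B * ‖P.orthogonalProjectionOnto y‖))) :=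
    ((integrable_exp_kern (F := S) B hε).comp_sub_right yS).mul_const _
  refine integral_mono_of_nonneg (Eventually.of_forall fun x => ?_) i1
    (Eventually.of_forall fun x => ?_)
  · have := kern_pos ε y ((x : E) + (z : E))
    simp only [Pi.zero_apply]
    positivity
  · simp only []
    rw [kern_split]
    have h1 : kern ε (x - yS) 0 = kern ε yS x := by
      rw [kern, kern, sub_zero, norm_sub_rev]
    rw [h1]
    have h2 : ‖P.orthogonalProjectionOnto (x : E)‖ ≤ ‖x - yS‖ + ‖P.orthogonalProjectionOnto y‖ := by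
      have h3 : P.orthogonalProjectionOnto (x : E) = P.orthogonalProjectionOnto ((x : E) - (yS : E)) +
          P.orthogonalProjectionOnto y := by
        rw [← projP_projS hPS y, ← map_add, sub_add_cancel]
      rw [h3]
      refine (norm_add_le _ _).trans (add_le_add ?_ le_rfl)
      exact P.norm_orthogonalProjectionOnto_apply_le _
    have h4 : Real.exp (B * ‖P.orthogonalProjectionOnto (x : E)‖) * Real.exp (-(ε * ‖x‖ ^ 2 / 2)) ≤
        Real.exp (B * ‖x - yS‖) * Real.exp (B * ‖P.orthogonalProjectionOnto y‖) := by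
      rw [← Real.exp_add, ← Real.exp_add]
      apply Real.exp_le_exp.2
      have h5 := mul_le_mul_of_nonneg_left h2 hB
      have h6 : 0 ≤ ε * ‖x‖ ^ 2 / 2 := by positivity
      linarith
    have h7 : 0 < kern ε yS x * kern ε (Sᗮ.orthogonalProjectionOnto y) z :=
      mul_pos (kern_pos _ _ _) (kern_pos _ _ _)
    calc _ ≤ (Real.exp (B * ‖x - yS‖) * Real.exp (B * ‖P.orthogonalProjectionOnto y‖)) *
          (kern ε yS x * kern ε (Sᗮ.orthogonalProjectionOnto y) z) :=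
          mul_le_mul_of_nonneg_right h4 h7.le
      _ = _ := by ring

/-- Lower bound for the inner integral. -/
theorem inner_lower (hε : 0 < ε) (hR : 0 ≤ R) (S : Submodule ℝ E) (z : Sᗮ) {y : E}
    (hy : ‖y‖ ≤ R) :
    ((1 - ε * R ^ 2) * (∫ v : S, kern ε v 0) - ε * ∫ v : S, ‖v‖ ^ 2 * kern ε v 0) *
      kern ε (Sᗮ.orthogonalProjectionOnto y) z ≤
    ∫ x : S, Real.exp (-(ε * ‖x‖ ^ 2 / 2)) * kern ε y ((x : E) + (z : E)) := by
  set yS : S := S.orthogonalProjectionOnto y with hyS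
  have hyS' : ‖yS‖ ≤ R := (S.norm_orthogonalProjectionOnto_apply_le y).trans hy
  have e0 : ∫ v : S, kern ε v 0 = ∫ x : S, kern ε (x - yS) 0 :=
    (integral_sub_right_eq_self (fun v : S => kern ε v 0) yS).symm
  have e2 : ∫ v : S, ‖v‖ ^ 2 * kern ε v 0 = ∫ x : S, ‖x - yS‖ ^ 2 * kern ε (x - yS) 0 :=
    (integral_sub_right_eq_self (fun v : S => ‖v‖ ^ 2 * kern ε v 0) yS).symm
  have i0 : Integrable (fun x : S => kern ε (x - yS) 0) :=
    (integrable_kern (E := S) hε 0).comp_sub_right yS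
  have i2 : Integrable (fun x : S => ‖x - yS‖ ^ 2 * kern ε (x - yS) 0) :=
    (integrable_sq_kern (F := S) hε).comp_sub_right yS
  rw [e0, e2, ← integral_const_mul, ← integral_const_mul,
    ← MeasureTheory.integral_sub (i0.const_mul _) (i2.const_mul _), ← integral_mul_const]
  have i3 : Integrable (fun x : S => Real.exp (-(ε * ‖x‖ ^ 2 / 2)) * kern ε y ((x : E) + (z : E))) := by
    have h := integrable_gs S (a := ε / 2) (by positivity)
    have h' : Integrable (fun x : S => Real.exp (-(ε * ‖x‖ ^ 2 / 2))) := by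
      refine h.congr (Eventually.of_forall fun x => ?_)
      simp only []
      congr 1
      ring
    refine h'.mul_bdd (c := 1) ?_ (Eventually.of_forall fun x => ?_)
    · have : Continuous (fun x : S => kern ε y ((x : E) + (z : E))) := by
        unfold kern; fun_prop
      exact this.aestronglyMeasurable
    · rw [Real.norm_eq_abs, abs_of_pos (kern_pos _ _ _)]
      exact kern_le_one _ _ _
  refine integral_mono (((i0.const_mul _).sub (i2.const_mul _)).mul_const _) i3 fun x => ?_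
  simp only []
  rw [kern_split]
  have h1 : kern ε (x - yS) 0 = kern ε yS x := by
    rw [kern, kern, sub_zero, norm_sub_rev]
  rw [h1]
  have h2 : ‖x‖ ^ 2 ≤ 2 * R ^ 2 + 2 * ‖x - yS‖ ^ 2 := by
    have h3 : ‖x‖ ≤ ‖x - yS‖ + ‖yS‖ := by
      have := norm_add_le (x - yS) yS
      rwa [sub_add_cancel] at this
    have h4 : ‖x‖ ≤ ‖x - yS‖ + R := h3.trans (add_le_add le_rfl hyS')
    have h5 := norm_nonneg x
    have h6 := norm_nonneg (x - yS)
    nlinarith [sq_nonneg (‖x - yS‖ - R)]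
  have h3 : 1 - ε * R ^ 2 - ε * ‖x - yS‖ ^ 2 ≤ Real.exp (-(ε * ‖x‖ ^ 2 / 2)) := by
    have h4 := Real.add_one_le_exp (-(ε * ‖x‖ ^ 2 / 2))
    nlinarith
  have h7 : 0 < kern ε yS x * kern ε (Sᗮ.orthogonalProjectionOnto y) z :=
    mul_pos (kern_pos _ _ _) (kern_pos _ _ _)
  calc _ = (1 - ε * R ^ 2 - ε * ‖x - yS‖ ^ 2) *
        (kern ε yS x * kern ε (Sᗮ.orthogonalProjectionOnto y) z) := by ring
    _ ≤ _ := mul_le_mul_of_nonneg_right h3 h7.le

theorem exp_neg_PUS (hK : CB K R) (S : Submodule ℝ E) (r : ℝ) (j : ℕ) (x : S) (z : Sᗮ) :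
    Real.exp (-PUS K S r j ((x : E) + (z : E))) =
      (Real.exp (-(1 / ((j:ℝ) + 1) * ‖z‖ ^ 2 / 2)) * Real.exp (-(‖z‖ ^ 2 / (2 * r ^ 2)))) *
        (Real.exp (-(1 / ((j:ℝ) + 1) * ‖x‖ ^ 2 / 2)) *
          ZZ K (1 / ((j:ℝ) + 1)) ((x : E) + (z : E))) := by
  rw [PUS, neg_add, Real.exp_add, L2.exp_neg_PU hK (by positivity), proj_add]
  have h := Submodule.norm_sq_eq_add_norm_sq_projection (𝕜 := ℝ) ((x : E) + (z : E)) S
  rw [proj_add, projS_add] at h
  have h2 : -(1 / ((j:ℝ) + 1) * ‖(x : E) + (z : E)‖ ^ 2 / 2) =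
      -(1 / ((j:ℝ) + 1) * ‖x‖ ^ 2 / 2) + -(1 / ((j:ℝ) + 1) * ‖z‖ ^ 2 / 2) := by
    rw [h]; ring
  rw [h2, Real.exp_add]
  ring

end Q3

open Q3 in
theorem approx_sec {K : Set E} {R : ℝ} (hK : CB K R) (S P : Submodule ℝ E) (hPS : P ≤ S)
    {β r : ℝ} (hβ : 0 < β) (hr : 0 < r)
    (h2 : ∀ y : Sᗮ, ∫ x : S in {x : S | (x : E) + (y : E) ∈ K},
      Real.exp (2 * β * ‖P.orthogonalProjectionOnto (x : E)‖) ≤
        2 * volume.real {x : S | (x : E) + (y : E) ∈ K}) :
    ∀ᶠ j : ℕ in atTop, ∀ z : Sᗮ, ∫ x : S, Real.exp (2 * β *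
      ‖P.orthogonalProjectionOnto (x : E)‖) ∂(mu (sec S (PUS K S r j) z))
        ≤ 3 * (mu (sec S (PUS K S r j) z)).real univ := by
  have hR : 0 ≤ R := by
    have h1 : K.Nonempty := by
      by_contra h
      rw [not_nonempty_iff_eq_empty] at h
      exact hK.vol0 (by rw [h]; simp)
    obtain ⟨x, hx⟩ := h1
    have hx' : ‖x‖ ≤ R := by simpa using hK.sub hx
    exact (norm_nonneg x).trans hx'
  filter_upwards [moments S (2 * β) R] with j hj z
  set ε : ℝ := 1 / ((j:ℝ) + 1) with hε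
  have hε0 : 0 < ε := by positivity
  have hc : Continuous (sec S (PUS K S r j) z) := by
    have := (contDiff_PUS hK S r j).continuous
    unfold sec
    fun_prop
  set D : ℝ := Real.exp (-(ε * ‖z‖ ^ 2 / 2)) * Real.exp (-(‖z‖ ^ 2 / (2 * r ^ 2))) with hD
  have hD0 : 0 < D := by positivity
  have hexp : ∀ x : S, Real.exp (-sec S (PUS K S r j) z x) = D *
      (Real.exp (-(ε * ‖x‖ ^ 2 / 2)) * ZZ K ε ((x : E) + (z : E))) := fun x =>
    exp_neg_PUS hK S r j x z
  have hmass : (mu (sec S (PUS K S r j) z)).real univ =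
      D * ∫ x : S, Real.exp (-(ε * ‖x‖ ^ 2 / 2)) * ZZ K ε ((x : E) + (z : E)) := by
    have h3 := integral_mu hc (fun _ => (1:ℝ))
    simp only [one_mul, hexp] at h3
    rw [integral_const_mul] at h3
    rw [← h3]
    simp
  have hmom : ∫ x : S, Real.exp (2 * β *
      ‖P.orthogonalProjectionOnto (x : E)‖) ∂(mu (sec S (PUS K S r j) z)) =
      D * ∫ x : S, (Real.exp (2 * β * ‖P.orthogonalProjectionOnto (x : E)‖) *
        Real.exp (-(ε * ‖x‖ ^ 2 / 2))) * ZZ K ε ((x : E) + (z : E)) := by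
    rw [integral_mu hc, ← integral_const_mul]
    congr 1
    ext x
    rw [hexp]
    ring
  rw [hmass, hmom]
  have hφ0 : Integrable (fun x : S => Real.exp (-(ε * ‖x‖ ^ 2 / 2))) := by
    refine (integrable_gs S (a := ε / 2) (by positivity)).congr (Eventually.of_forall fun x => ?_)
    simp only []
    congr 1
    ring
  obtain ⟨f1, f1'⟩ := fubini hK S ε z (integrable_phi1 hε0 S P (2 * β) (by positivity))
  obtain ⟨f0, f0'⟩ := fubini hK S ε z hφ0
  rw [f1, f0]
  set c1 := ∫ v : S, Real.exp (2 * β * ‖v‖) * kern ε v 0 with hc1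
  set c0 := (1 - ε * R ^ 2) * (∫ v : S, kern ε v 0) - ε * ∫ v : S, ‖v‖ ^ 2 * kern ε v 0 with hc0
  have hc1' : 0 ≤ c1 := integral_nonneg fun v => mul_nonneg (Real.exp_pos _).le (kern_pos _ _ _).le
  -- continuity and integrability on `K`
  have hcont : ∀ ψ : E → ℝ, Continuous ψ → Integrable ψ (volume.restrict K) := by
    intro ψ hψ
    obtain ⟨M, hM⟩ := hK.bdd_of_cont hψ
    refine Measure.integrableOn_of_bounded (M := M) hK.lt_top.ne hψ.aestronglyMeasurable ?_
    exact (ae_restrict_iff' hK.meas).2 (Eventually.of_forall fun y hy => hM y hy)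
  have hk1 : Continuous (fun y : E => kern ε (Sᗮ.orthogonalProjectionOnto y) z) := by
    unfold kern; fun_prop
  have hk2 : Continuous (fun y : E => kern ε (Sᗮ.orthogonalProjectionOnto y) z *
      Real.exp (2 * β * ‖P.orthogonalProjectionOnto y‖)) := by
    unfold kern; fun_prop
  have u1 : ∫ y in K, ∫ x : S, (Real.exp (2 * β * ‖P.orthogonalProjectionOnto (x : E)‖) *
        Real.exp (-(ε * ‖x‖ ^ 2 / 2))) * kern ε y ((x : E) + (z : E)) ≤
      c1 * ∫ y in K, kern ε (Sᗮ.orthogonalProjectionOnto y) z *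
        Real.exp (2 * β * ‖P.orthogonalProjectionOnto y‖) := by
    rw [← integral_const_mul]
    exact integral_mono f1' ((hcont _ hk2).const_mul _) fun y =>
      inner_upper hε0 hPS (by positivity) z y
  have u2 : c0 * ∫ y in K, kern ε (Sᗮ.orthogonalProjectionOnto y) z ≤
      ∫ y in K, ∫ x : S, Real.exp (-(ε * ‖x‖ ^ 2 / 2)) * kern ε y ((x : E) + (z : E)) := by
    rw [← integral_const_mul]
    refine integral_mono_ae ((hcont _ hk1).const_mul _) f0' ?_
    refine (ae_restrict_iff' hK.meas).2 (Eventually.of_forall fun y hy => ?_)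
    exact inner_lower hε0 hR S z (by simpa using hK.sub hy)
  have u3 : ∫ y in K, kern ε (Sᗮ.orthogonalProjectionOnto y) z *
        Real.exp (2 * β * ‖P.orthogonalProjectionOnto y‖) ≤
      2 * ∫ y in K, kern ε (Sᗮ.orthogonalProjectionOnto y) z := by
    obtain ⟨s1, s1'⟩ := sections (ε := ε) hK S z
      (ψ := fun y => Real.exp (2 * β * ‖P.orthogonalProjectionOnto y‖)) (by fun_prop)
      (fun s w => by rw [projP_add hPS])
    obtain ⟨s2, s2'⟩ := sections (ε := ε) hK S z (ψ := fun _ => (1:ℝ)) continuous_const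
      (fun s w => rfl)
    simp only [mul_one] at s2
    rw [s1, s2, ← integral_const_mul]
    refine integral_mono s1' (s2'.const_mul _) fun w => ?_
    simp only []
    have h5 := mul_le_mul_of_nonneg_left (h2 w) (kern_pos ε w z).le
    have h6 : ∫ s : S in {s : S | (s : E) + (w : E) ∈ K}, (1:ℝ) =
        volume.real {x : S | (x : E) + (w : E) ∈ K} := by
      simp
    rw [h6]
    linarith
  have hJ : 0 ≤ ∫ y in K, kern ε (Sᗮ.orthogonalProjectionOnto y) z :=
    integral_nonneg fun y => (kern_pos _ _ _).le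
  have h7 : ∫ y in K, ∫ x : S, (Real.exp (2 * β * ‖P.orthogonalProjectionOnto (x : E)‖) *
        Real.exp (-(ε * ‖x‖ ^ 2 / 2))) * kern ε y ((x : E) + (z : E)) ≤
      3 * ∫ y in K, ∫ x : S, Real.exp (-(ε * ‖x‖ ^ 2 / 2)) * kern ε y ((x : E) + (z : E)) := by
    have h8 := mul_le_mul_of_nonneg_left u3 hc1'
    have h9 := mul_le_mul_of_nonneg_right hj hJ
    linarith
  have h10 := mul_le_mul_of_nonneg_left h7 hD0.le
  linarith

end Pool.Agent.H84.Sym
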